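import Mathlib

/-!
Plain and self-delimiting Kolmogorov complexity, and `C`-trivial and `K`-trivial measures.
-/

set_option linter.all false

namespace Pool.Agent.H.MP_616e01_lc

/-- A machine is a partial function from finite binary strings to finite binary strings. -/
abbrev Machine := List Bool →. List Bool

/-- An optimal (universal) plain machine: a partial recursive `U` such that every partial
recursive machine `N` is simulated by `U` with a constant increase of the length of programs. -/
def OptimalPlain (U : Machine) : Prop :=
  Partrec U ∧ ∀ N : Machine, Partrec N →
    ∃ c : ℕ, ∀ p x, x ∈ N p → ∃ q, x ∈ U q ∧ q.length ≤ p.length + c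

/-- The domain of the machine is free of comparable pairs: no program extends another one. -/
def IsPrefixFree (M : Machine) : Prop :=
  ∀ p q, (M p).Dom → (M q).Dom → p <+: q → p = q

/-- An optimal (universal) machine among the partial recursive machines whose domain is
an antichain for extension of strings. -/
def OptimalPrefixFree (V : Machine) : Prop :=
  Partrec V ∧ IsPrefixFree V ∧ ∀ N : Machine, Partrec N → IsPrefixFree N →
    ∃ c : ℕ, ∀ p x, x ∈ N p → ∃ q, x ∈ V q ∧ q.length ≤ p.length + c

/-- The complexity of a string with respect to a machine: the length of a shortest program. -/
noncomputable def complexity (M : Machine) (x : List Bool) : ℕ :=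
  sInf {k | ∃ p, x ∈ M p ∧ p.length = k}

/-- The `n`-th binary string in the length-lexicographic order: the binary expansion of `n + 1`
without its leading digit. -/
def natStr (n : ℕ) : List Bool := (Nat.bits (n + 1)).reverse.tail

/-- The cylinder of all infinite binary sequences that extend the finite string `x`. -/
def cylinder (x : List Bool) : Set (ℕ → Bool) := {X | ∀ (i : ℕ) (h : i < x.length), X i = x[i]}

/-- The `μ`-average of the complexity of the strings of length `n`. -/
noncomputable def average (M : Machine) (μ : MeasureTheory.Measure (ℕ → Bool)) (n : ℕ) : ℝ :=
  ∑ v : Fin n → Bool, (μ (cylinder (List.ofFn v))).toReal * (complexity M (List.ofFn v) : ℝ)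

/-- The measure `μ` is trivial with respect to the machine `M`: the average complexity at length
`n` exceeds the complexity of `n` by at most a constant. -/
def IsTrivial (M : Machine) (μ : MeasureTheory.Measure (ℕ → Bool)) : Prop :=
  ∃ c : ℝ, ∀ n : ℕ, average M μ n ≤ (complexity M (natStr n) : ℝ) + c

end Pool.Agent.H.MP_616e01_lc
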