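import Mathlib
import Pool.Agent.H.MP_616e01_lc.Defs

/-!
The identification of natural numbers with binary strings.
-/

set_option linter.all false

namespace Pool.Agent.H.MP_616e01_lc

theorem natStr_zero : natStr 0 = [] := by
  simp [natStr]

theorem bits_ne_nil (n : ℕ) : Nat.bits (n + 1) ≠ [] := by
  intro h
  have h1 := Nat.size_eq_bits_len (n + 1)
  rw [h] at h1
  simp at h1
  have := Nat.size_eq_zero.1 h1.symm
  omega

theorem natStr_bit (a : ℕ) (b : Bool) : natStr (2 * a + 1 + b.toNat) = natStr a ++ [b] := by
  have h : 2 * a + 1 + b.toNat + 1 = Nat.bit b (a + 1) := by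
    rw [Nat.bit_val]; ring
  unfold natStr
  rw [h, Nat.bits_append_bit _ _ (by intro h; omega), List.reverse_cons,
    List.tail_append_of_ne_nil (by simpa using bits_ne_nil a)]

/-- The inverse of `natStr`. -/
def strNat (x : List Bool) : ℕ := x.foldl (fun a b => 2 * a + 1 + b.toNat) 0

theorem strNat_append (x : List Bool) (b : Bool) : strNat (x ++ [b]) = 2 * strNat x + 1 + b.toNat := by
  simp [strNat, List.foldl_append]

theorem natStr_strNat (x : List Bool) : natStr (strNat x) = x := by
  induction x using List.reverseRecOn with
  | nil => simp [strNat, natStr_zero]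
  | append_singleton x b ih => rw [strNat_append, natStr_bit, ih]

theorem strNat_natStr (n : ℕ) : strNat (natStr n) = n := by
  induction n using Nat.strong_induction_on with
  | _ n ih =>
    rcases Nat.eq_zero_or_pos n with h | h
    · subst h; simp [natStr_zero, strNat]
    · have h1 : n = 2 * ((n - 1) / 2) + 1 + ((decide ((n - 1) % 2 = 1)).toNat) := by
        by_cases h2 : (n - 1) % 2 = 1
        · simp only [h2, decide_true, Bool.toNat_true]; omega
        · simp only [h2, decide_false, Bool.toNat_false]; omega
      rw [h1, natStr_bit, strNat_append, ih _ (by omega)]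

theorem natStr_injective : Function.Injective natStr :=
  Function.LeftInverse.injective strNat_natStr

theorem strNat_injective : Function.Injective strNat :=
  Function.LeftInverse.injective natStr_strNat

theorem strNat_lt (x : List Bool) : strNat x + 1 < 2 ^ (x.length + 1) := by
  induction x using List.reverseRecOn with
  | nil => simp [strNat]
  | append_singleton x b ih =>
    rw [strNat_append, List.length_append, List.length_singleton, pow_succ]
    have := Bool.toNat_le b
    omega

theorem le_strNat (x : List Bool) : 2 ^ x.length ≤ strNat x + 1 := by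
  induction x using List.reverseRecOn with
  | nil => simp [strNat]
  | append_singleton x b ih =>
    rw [strNat_append, List.length_append, List.length_singleton, pow_succ]
    omega

theorem length_natStr_iff (n l : ℕ) : (natStr n).length = l ↔ 2 ^ l ≤ n + 1 ∧ n + 1 < 2 ^ (l + 1) := by
  have h1 := strNat_lt (natStr n)
  have h2 := le_strNat (natStr n)
  rw [strNat_natStr] at h1 h2
  constructor
  · rintro rfl; exact ⟨h2, h1⟩
  · rintro ⟨h3, h4⟩
    have h5 : (natStr n).length < l + 1 := (Nat.pow_lt_pow_iff_right (by norm_num)).1 (h2.trans_lt h4)
    have h6 : l < (natStr n).length + 1 := (Nat.pow_lt_pow_iff_right (by norm_num)).1 (h3.trans_lt h1)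
    omega

/-- The `i`-th natural number whose string has length `l`. -/
def lvl (l i : ℕ) : ℕ := 2 ^ l - 1 + i

theorem length_natStr_lvl {l i : ℕ} (h : i < 2 ^ l) : (natStr (lvl l i)).length = l := by
  rw [length_natStr_iff]
  have : 0 < 2 ^ l := by positivity
  unfold lvl
  rw [pow_succ]
  omega

theorem lvl_injective {l i j : ℕ} (h : lvl l i = lvl l j) : i = j := by
  unfold lvl at h; omega

theorem exists_lvl (x : List Bool) : ∃ i < 2 ^ x.length, natStr (lvl x.length i) = x := by
  refine ⟨strNat x - (2 ^ x.length - 1), ?_, ?_⟩
  · have := strNat_lt x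
    have := le_strNat x
    rw [pow_succ] at *
    omega
  · have := le_strNat x
    unfold lvl
    have h : 2 ^ x.length - 1 + (strNat x - (2 ^ x.length - 1)) = strNat x := by omega
    rw [h, natStr_strNat]

theorem primrec_strNat : Primrec strNat := by
  unfold strNat
  refine Primrec.list_foldl (α := List Bool) (β := Bool) (σ := ℕ) (f := fun x => x)
    (g := fun _ => 0) (h := fun _ z => 2 * z.1 + 1 + z.2.toNat) .id (Primrec.const 0) ?_
  have h1 : Primrec (fun z : List Bool × (ℕ × Bool) => 2 * z.2.1 + 1 + z.2.2.toNat) := by
    refine Primrec.nat_add.comp (Primrec.succ.comp (Primrec.nat_mul.comp (Primrec.const 2)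
      (Primrec.fst.comp Primrec.snd))) ?_
    exact (Primrec.dom_bool Bool.toNat).comp (Primrec.snd.comp Primrec.snd)
  exact h1

theorem primrec_natStr : Primrec natStr := by
  have h := Primrec.nat_strong_rec (α := Unit) (σ := List Bool) (fun _ n => natStr n)
    (g := fun _ l => if l.length = 0 then some [] else
      (l[(l.length - 1) / 2]?).map (fun y => y ++ [decide ((l.length - 1) % 2 = 1)])) ?_ ?_
  · exact h.comp (Primrec.const ()) Primrec.id
  · have h0 : PrimrecPred fun z : Unit × List (List Bool) => z.2.length = 0 :=
      Primrec.eq.comp (Primrec.list_length.comp Primrec.snd) (Primrec.const 0)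
    have hp : Primrec fun z : Unit × List (List Bool) => (z.2.length - 1) :=
      Primrec.pred.comp (Primrec.list_length.comp Primrec.snd)
    have hd : Primrec fun z : (Unit × List (List Bool)) × List Bool =>
        decide ((z.1.2.length - 1) % 2 = 1) :=
      (Primrec.eq.comp (Primrec.nat_mod.comp (hp.comp Primrec.fst) (Primrec.const 2))
        (Primrec.const 1)).decide
    have h1 : Primrec fun z : Unit × List (List Bool) =>
        (z.2[(z.2.length - 1) / 2]?).map (fun y => y ++ [decide ((z.2.length - 1) % 2 = 1)]) := by
      refine Primrec.option_map (f := fun z : Unit × List (List Bool) => z.2[(z.2.length - 1) / 2]?)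
        (g := fun z y => y ++ [decide ((z.2.length - 1) % 2 = 1)]) ?_ ?_
      · exact Primrec.list_getElem?.comp Primrec.snd (Primrec.nat_div.comp hp (Primrec.const 2))
      · exact Primrec.to₂ (Primrec.list_append.comp Primrec.snd
          (Primrec.list_cons.comp hd (Primrec.const [])))
    exact Primrec.to₂ (Primrec.ite h0 (Primrec.const (some ([] : List Bool))) h1)
  · intro _ n
    rcases Nat.eq_zero_or_pos n with h | h
    · subst h; simp [natStr_zero]
    · have h1 : n = 2 * ((n - 1) / 2) + 1 + ((decide ((n - 1) % 2 = 1)).toNat) := by
        by_cases h2 : (n - 1) % 2 = 1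
        · simp only [h2, decide_true, Bool.toNat_true]; omega
        · simp only [h2, decide_false, Bool.toNat_false]; omega
      have h3 : (n - 1) / 2 < n := by omega
      have h4 : ¬ n = 0 := by omega
      simp only [List.length_map, List.length_range, if_neg h4, List.getElem?_map,
        List.getElem?_range h3, Option.map_some]
      conv_rhs => rw [h1, natStr_bit]

end Pool.Agent.H.MP_616e01_lc
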