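import Mathlib
import Pool.Agent.H.MP_616e01_lc.Defs
import Pool.Agent.H.MP_616e01_lc.CE
import Pool.Agent.H.MP_616e01_lc.Strings

/-!
Basic facts on complexity, and the prefix-free description of strings.
-/

set_option linter.all false

namespace Pool.Agent.H.MP_616e01_lc

theorem complexity_le {M : Machine} {p x : List Bool} (h : x ∈ M p) :
    complexity M x ≤ p.length :=
  Nat.sInf_le ⟨p, h, rfl⟩

theorem complexity_spec {M : Machine} {x : List Bool} (h : ∃ p, x ∈ M p) :
    ∃ p, x ∈ M p ∧ p.length = complexity M x := by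
  obtain ⟨p, hp⟩ := h
  exact Nat.sInf_mem (s := {k | ∃ p, x ∈ M p ∧ p.length = k}) ⟨_, p, hp, rfl⟩

section plain

variable {U : Machine} (hU : OptimalPlain U)

include hU

theorem OptimalPlain.exists_le : ∃ c : ℕ, ∀ x : List Bool, ∃ q, x ∈ U q ∧ q.length ≤ x.length + c := by
  obtain ⟨c, hc⟩ := hU.2 (fun p => Part.some p) Partrec.some
  exact ⟨c, fun x => hc x x (Part.mem_some x)⟩

theorem OptimalPlain.spec (x : List Bool) : ∃ p, x ∈ U p ∧ p.length = complexity U x := by
  obtain ⟨c, hc⟩ := hU.exists_le
  obtain ⟨q, hq, -⟩ := hc x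
  exact complexity_spec ⟨q, hq⟩

theorem OptimalPlain.le_length : ∃ c : ℕ, ∀ x : List Bool, complexity U x ≤ x.length + c := by
  obtain ⟨c, hc⟩ := hU.exists_le
  refine ⟨c, fun x => ?_⟩
  obtain ⟨q, hq, h⟩ := hc x
  exact (complexity_le hq).trans h

theorem OptimalPlain.le_comp {f : List Bool → List Bool} (hf : Computable f) :
    ∃ c : ℕ, ∀ x : List Bool, complexity U (f x) ≤ complexity U x + c := by
  have h1 : Partrec fun p => (U p).map f := hU.1.map (Computable.to₂ (hf.comp Computable.snd))
  obtain ⟨c, hc⟩ := hU.2 _ h1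
  refine ⟨c, fun x => ?_⟩
  obtain ⟨p, hp, hpx⟩ := hU.spec x
  obtain ⟨q, hq, h⟩ := hc p (f x) (Part.mem_map f hp)
  rw [hpx] at h
  exact (complexity_le hq).trans h

theorem OptimalPlain.card_lt (m : ℕ) (F : Finset (List Bool)) (hF : ∀ x ∈ F, complexity U x < m) :
    F.card ≤ 2 ^ m := by
  choose p hp hpx using hU.spec
  have h1 : (F.image (fun x => strNat (p x))).card = F.card := by
    apply Finset.card_image_of_injective
    intro x y hxy
    have h2 := strNat_injective hxy
    have h3 := hp x
    rw [h2] at h3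
    exact Part.mem_unique h3 (hp y)
  rw [← h1]
  have h2 : F.image (fun x => strNat (p x)) ⊆ Finset.range (2 ^ m) := by
    intro k hk
    obtain ⟨x, hx, rfl⟩ := Finset.mem_image.1 hk
    rw [Finset.mem_range]
    have h3 := strNat_lt (p x)
    have h4 : (p x).length + 1 ≤ m := by rw [hpx]; exact hF x hx
    have h5 : 2 ^ ((p x).length + 1) ≤ 2 ^ m := Nat.pow_le_pow_right (by norm_num) h4
    omega
  simpa using Finset.card_le_card h2

theorem OptimalPlain.ce_lt : CE (fun x : List Bool × ℕ => complexity U x.1 < x.2) := by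
  have h1 : CE (fun x : List Bool × List Bool => x.2 ∈ U x.1) := CE.graph hU.1
  have h2 : CE (fun x : (List Bool × ℕ) × List Bool => x.1.1 ∈ U x.2 ∧ x.2.length < x.1.2) := by
    refine CE.and ?_ ?_
    · exact h1.comp (f := fun x : (List Bool × ℕ) × List Bool => (x.2, x.1.1))
        (Primrec.snd.pair (Primrec.fst.comp Primrec.fst))
    · exact CE.of_primrec (Primrec.nat_lt.comp (Primrec.list_length.comp Primrec.snd)
        (Primrec.snd.comp Primrec.fst))
  refine (CE.exists h2).of_eq ?_
  rintro ⟨x, m⟩
  simp only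
  constructor
  · rintro ⟨p, hp, h⟩
    exact (complexity_le hp).trans_lt h
  · intro h
    obtain ⟨p, hp, hpx⟩ := hU.spec x
    exact ⟨p, hp, hpx ▸ h⟩

end plain

/-- `replicate k true` as a primitive recursive function. -/
theorem primrec_replicate : Primrec fun k : ℕ => List.replicate k true := by
  have h : Primrec fun k : ℕ => (List.range k).map (fun _ => true) :=
    Primrec.list_map Primrec.list_range (Primrec.const true).to₂
  refine h.of_eq fun k => ?_
  simp

theorem replicate_aux {k k' : ℕ} {u u' : List Bool}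
    (h : List.replicate k true ++ false :: u <+: List.replicate k' true ++ false :: u') :
    k = k' ∧ u <+: u' := by
  induction k generalizing k' with
  | zero =>
    cases k' with
    | zero => simpa using h
    | succ k' =>
      simp [List.replicate_succ] at h
  | succ k ih =>
    cases k' with
    | zero => simp [List.replicate_succ] at h
    | succ k' =>
      simp only [List.replicate_succ, List.cons_append, List.cons_prefix_cons, true_and] at h
      obtain ⟨h1, h2⟩ := ih h
      exact ⟨by omega, h2⟩

section prefixfree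

variable {V : Machine} (hV : OptimalPrefixFree V)

include hV

/-- A single-valued c.e. relation with an antichain as domain gives descriptions for `V`. -/
theorem OptimalPrefixFree.of_rel {R : List Bool × List Bool → Prop} (hR : CE R)
    (h1 : ∀ p q x y, R (p, x) → R (q, y) → p <+: q → p = q)
    (h2 : ∀ p x y, R (p, x) → R (p, y) → x = y) :
    ∃ c : ℕ, ∀ p x, R (p, x) → ∃ q, x ∈ V q ∧ q.length ≤ p.length + c := by
  obtain ⟨W, hW, hWR, hdom⟩ := hR.uniformize
  have hpf : IsPrefixFree W := by
    intro p q hp hq hpq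
    exact h1 p q _ _ (hWR p _ (Part.get_mem hp)) (hWR q _ (Part.get_mem hq)) hpq
  obtain ⟨c, hc⟩ := hV.2.2 W hW hpf
  refine ⟨c, fun p x hpx => hc p x ?_⟩
  have h3 := hdom p ⟨x, hpx⟩
  have h4 := hWR p _ (Part.get_mem h3)
  have h5 := h2 p _ _ hpx h4
  rw [h5]
  exact Part.get_mem h3

theorem OptimalPrefixFree.spec (x : List Bool) :
    ∃ p, x ∈ V p ∧ p.length = complexity V x := by
  apply complexity_spec
  have hR : CE (fun z : List Bool × List Bool => ∃ n : ℕ,
      z.1 = List.replicate n true ++ [false] ∧ z.2 = natStr n) := by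
    apply CE.exists (β := ℕ) (R := fun z : (List Bool × List Bool) × ℕ =>
      z.1.1 = List.replicate z.2 true ++ [false] ∧ z.1.2 = natStr z.2)
    apply CE.of_primrec
    apply PrimrecPred.and
    · exact Primrec.eq.comp (Primrec.fst.comp Primrec.fst)
        (Primrec.list_append.comp (primrec_replicate.comp Primrec.snd) (Primrec.const [false]))
    · exact Primrec.eq.comp (Primrec.snd.comp Primrec.fst) (primrec_natStr.comp Primrec.snd)
  obtain ⟨c, hc⟩ := hV.of_rel hR (by
    rintro p q x y ⟨n, hp, -⟩ ⟨m, hq, -⟩ h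
    simp only at hp hq
    rw [hp, hq] at h ⊢
    rw [(replicate_aux h).1]) (by
    rintro p x y ⟨n, hp, hx⟩ ⟨m, hq, hy⟩
    simp only at hp hq hx hy
    rw [hp] at hq
    have : n = m := (replicate_aux (u := []) (u' := []) (by rw [hq])).1
    rw [hx, hy, this])
  obtain ⟨q, hq, -⟩ := hc (List.replicate (strNat x) true ++ [false]) x
    ⟨strNat x, rfl, (natStr_strNat x).symm⟩
  exact ⟨q, hq⟩

end prefixfree

end Pool.Agent.H.MP_616e01_lc
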