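import Mathlib
import Pool.Agent.H.MP_616e01_lc.Machines

/-!
The key inequality: the prefix-free complexity of a string `y` of length `l` is bounded by that of
`l`, plus a constant, plus an average of plain complexities.
-/

set_option linter.all false

namespace Pool.Agent.H.MP_616e01_lc

open Classical in
/-- The number of `i < 2 ^ l` such that `natStr (lvl l i) ++ y` has complexity below `l + k`. -/
noncomputable def cnt (U : Machine) (l k : ℕ) (y : List Bool) : ℕ :=
  Nat.count (fun i => complexity U (natStr (lvl l i) ++ y) < l + k) (2 ^ l)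

/-- The strings that are simple together with at least one half of the numbers of length `l`. -/
def Simple (U : Machine) (z : (ℕ × ℕ) × List Bool) : Prop :=
  z.2.length = z.1.1 ∧ 2 ^ z.1.1 ≤ 2 * cnt U z.1.1 z.1.2 z.2

theorem primrec_pow2 : Primrec fun n : ℕ => 2 ^ n := by
  have h := Primrec.nat_rec₁ (f := fun _ (m : ℕ) => 2 * m) 1
    (Primrec.to₂ (Primrec.nat_mul.comp (Primrec.const 2) Primrec.snd))
  refine h.of_eq fun n => ?_
  induction n with
  | zero => rfl
  | succ n ih => simp only [pow_succ] at ih ⊢; rw [← ih]; ring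

theorem primrec_lvl : Primrec₂ lvl := by
  unfold lvl
  exact Primrec.to₂ (Primrec.nat_add.comp (Primrec.pred.comp (primrec_pow2.comp Primrec.fst))
    Primrec.snd)

theorem ce_simple {U : Machine} (hU : OptimalPlain U) : CE (Simple U) := by
  classical
  have h1 : CE (fun w : ((ℕ × ℕ) × List Bool) × ℕ =>
      complexity U (natStr (lvl w.1.1.1 w.2) ++ w.1.2) < w.1.1.1 + w.1.1.2) := by
    refine hU.ce_lt.comp (f := fun w : ((ℕ × ℕ) × List Bool) × ℕ =>
      (natStr (lvl w.1.1.1 w.2) ++ w.1.2, w.1.1.1 + w.1.1.2)) ?_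
    have h2 : Primrec fun w : ((ℕ × ℕ) × List Bool) × ℕ => w.1.1.1 :=
      Primrec.fst.comp (Primrec.fst.comp Primrec.fst)
    refine Primrec.pair ?_ ?_
    · exact Primrec.list_append.comp (primrec_natStr.comp (primrec_lvl.comp h2 Primrec.snd))
        (Primrec.snd.comp Primrec.fst)
    · exact Primrec.nat_add.comp h2 (Primrec.snd.comp (Primrec.fst.comp Primrec.fst))
  have h2 := h1.count_ge
  have h3 : CE (fun z : (ℕ × ℕ) × List Bool => 2 ^ z.1.1 ≤ 2 * cnt U z.1.1 z.1.2 z.2) := by
    have h4 := h2.comp (f := fun z : (ℕ × ℕ) × List Bool => (z, 2 ^ z.1.1, (2 ^ z.1.1 + 1) / 2)) (by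
      have h5 : Primrec fun z : (ℕ × ℕ) × List Bool => 2 ^ z.1.1 :=
        primrec_pow2.comp (Primrec.fst.comp Primrec.fst)
      exact Primrec.pair Primrec.id (Primrec.pair h5
        (Primrec.nat_div.comp (Primrec.succ.comp h5) (Primrec.const 2))))
    refine h4.of_eq fun z => ?_
    unfold cnt
    simp only
    omega
  refine CE.and (CE.of_primrec ?_) h3
  exact Primrec.eq.comp (Primrec.list_length.comp Primrec.snd) (Primrec.fst.comp Primrec.fst)

theorem append_inj_lvl {l i i' : ℕ} {y y' : List Bool} (hi : i < 2 ^ l) (hi' : i' < 2 ^ l)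
    (h : natStr (lvl l i) ++ y = natStr (lvl l i') ++ y') : i = i' ∧ y = y' := by
  obtain ⟨h1, h2⟩ := List.append_inj h (by rw [length_natStr_lvl hi, length_natStr_lvl hi'])
  exact ⟨lvl_injective (natStr_injective h1), h2⟩

theorem card_simple {U : Machine} (hU : OptimalPlain U) (l k : ℕ) (F : Finset (List Bool))
    (hF : ∀ y ∈ F, Simple U ((l, k), y)) : F.card ≤ 2 ^ (k + 1) := by
  classical
  let A : Finset (List Bool × ℕ) := (F ×ˢ Finset.range (2 ^ l)).filter
    (fun z => complexity U (natStr (lvl l z.2) ++ z.1) < l + k)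
  have h1 : A.card ≤ 2 ^ (l + k) := by
    have h2 : (A.image (fun z => natStr (lvl l z.2) ++ z.1)).card = A.card := by
      apply Finset.card_image_of_injOn
      rintro ⟨y, i⟩ hz ⟨y', i'⟩ hz' h
      simp only [A, Finset.coe_filter, Finset.mem_product, Finset.mem_range,
        Set.mem_ofPred_eq] at hz hz'
      obtain ⟨e1, e2⟩ := append_inj_lvl hz.1.2 hz'.1.2 h
      exact Prod.ext e2 e1
    rw [← h2]
    apply hU.card_lt
    intro x hx
    obtain ⟨z, hz, rfl⟩ := Finset.mem_image.1 hx
    exact (Finset.mem_filter.1 hz).2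
  have h2 : A.card = ∑ y ∈ F, cnt U l k y := by
    have h3 : A.card = ∑ z ∈ F ×ˢ Finset.range (2 ^ l),
        if complexity U (natStr (lvl l z.2) ++ z.1) < l + k then 1 else 0 := by
      rw [Finset.card_filter]
    rw [h3, Finset.sum_product]
    apply Finset.sum_congr rfl
    intro y _
    rw [← Finset.card_filter, cnt, Nat.count_eq_card_filter_range]
  have h3 : F.card * 2 ^ l ≤ 2 * A.card := by
    rw [h2, Finset.mul_sum]
    calc F.card * 2 ^ l = ∑ y ∈ F, 2 ^ l := by simp
      _ ≤ _ := Finset.sum_le_sum fun y hy => (hF y hy).2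
  have h4 : F.card * 2 ^ l ≤ 2 ^ (k + 1) * 2 ^ l := by
    calc F.card * 2 ^ l ≤ 2 * A.card := h3
      _ ≤ 2 * 2 ^ (l + k) := by omega
      _ = 2 ^ (k + 1) * 2 ^ l := by rw [pow_add, pow_succ]; ring
  exact Nat.le_of_mul_le_mul_right h4 (by positivity)

/-- Prefix-free description of the strings in the set `Simple`. -/
theorem complexity_of_simple {U V : Machine} (hU : OptimalPlain U) (hV : OptimalPrefixFree V) :
    ∃ c : ℕ, ∀ l k y, Simple U ((l, k), y) →
      complexity V y ≤ complexity V (natStr l) + 2 * k + c := by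
  obtain ⟨G, hG, hfun, hGS, hGN⟩ := (ce_simple hU).enum
  -- the relation computed by the machine
  let R : List Bool × List Bool → Prop := fun z => ∃ w : List Bool × ((ℕ × ℕ) × ℕ),
    (z.1 = w.1 ++ (List.replicate w.2.1.2 true ++ false :: natStr (lvl (w.2.1.2 + 1) w.2.2)) ∧
      w.2.2 < 2 ^ (w.2.1.2 + 1)) ∧ (natStr w.2.1.1 ∈ V w.1 ∧ G (w.2, z.2))
  have hR : CE R := by
    apply CE.exists (β := List Bool × ((ℕ × ℕ) × ℕ))
      (R := fun v : (List Bool × List Bool) × (List Bool × ((ℕ × ℕ) × ℕ)) =>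
        (v.1.1 = v.2.1 ++ (List.replicate v.2.2.1.2 true ++
          false :: natStr (lvl (v.2.2.1.2 + 1) v.2.2.2)) ∧
        v.2.2.2 < 2 ^ (v.2.2.1.2 + 1)) ∧ (natStr v.2.2.1.1 ∈ V v.2.1 ∧ G (v.2.2, v.1.2)))
    have p1 : Primrec fun v : (List Bool × List Bool) × (List Bool × ((ℕ × ℕ) × ℕ)) =>
        v.2.2.1.2 :=
      Primrec.snd.comp (Primrec.fst.comp (Primrec.snd.comp Primrec.snd))
    have p2 : Primrec fun v : (List Bool × List Bool) × (List Bool × ((ℕ × ℕ) × ℕ)) =>
        v.2.2.2 :=
      Primrec.snd.comp (Primrec.snd.comp Primrec.snd)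
    refine CE.and (CE.of_primrec (PrimrecPred.and ?_ ?_)) (CE.and ?_ ?_)
    · refine Primrec.eq.comp (Primrec.fst.comp Primrec.fst) ?_
      refine Primrec.list_append.comp (Primrec.fst.comp Primrec.snd) ?_
      refine Primrec.list_append.comp (primrec_replicate.comp p1) ?_
      exact Primrec.list_cons.comp (Primrec.const false)
        (primrec_natStr.comp (primrec_lvl.comp (Primrec.succ.comp p1) p2))
    · exact Primrec.nat_lt.comp p2 (primrec_pow2.comp (Primrec.succ.comp p1))
    · exact (CE.graph hV.1).comp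
        (f := fun v : (List Bool × List Bool) × (List Bool × ((ℕ × ℕ) × ℕ)) =>
          (v.2.1, natStr v.2.2.1.1))
        (Primrec.pair (Primrec.fst.comp Primrec.snd) (primrec_natStr.comp
          (Primrec.fst.comp (Primrec.fst.comp (Primrec.snd.comp Primrec.snd)))))
    · exact hG.comp (f := fun v : (List Bool × List Bool) × (List Bool × ((ℕ × ℕ) × ℕ)) =>
        (v.2.2, v.1.2)) (Primrec.pair (Primrec.snd.comp Primrec.snd)
          (Primrec.snd.comp Primrec.fst))
  have hpre : ∀ p q x y (w w' : List Bool × ((ℕ × ℕ) × ℕ)),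
      (p = w.1 ++ (List.replicate w.2.1.2 true ++ false :: natStr (lvl (w.2.1.2 + 1) w.2.2)) ∧
        w.2.2 < 2 ^ (w.2.1.2 + 1)) ∧ (natStr w.2.1.1 ∈ V w.1 ∧ G (w.2, x)) →
      (q = w'.1 ++ (List.replicate w'.2.1.2 true ++ false :: natStr (lvl (w'.2.1.2 + 1) w'.2.2)) ∧
        w'.2.2 < 2 ^ (w'.2.1.2 + 1)) ∧ (natStr w'.2.1.1 ∈ V w'.1 ∧ G (w'.2, y)) →
      p <+: q → w = w' := by
    rintro p q x y ⟨a, ⟨l, k⟩, j⟩ ⟨a', ⟨l', k'⟩, j'⟩ ⟨⟨hp, hj⟩, ha, -⟩ ⟨⟨hq, hj'⟩, ha', -⟩ h
    simp only at hp hj ha hq hj' ha'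
    have ha1 : a <+: q := (List.prefix_append a _).trans (hp ▸ h)
    have ha1' : a' <+: q := hq ▸ List.prefix_append a' _
    have haa : a = a' := by
      rcases List.prefix_or_prefix_of_prefix ha1 ha1' with h1 | h1
      · exact hV.2.1 a a' (Part.dom_iff_mem.2 ⟨_, ha⟩) (Part.dom_iff_mem.2 ⟨_, ha'⟩) h1
      · exact (hV.2.1 a' a (Part.dom_iff_mem.2 ⟨_, ha'⟩) (Part.dom_iff_mem.2 ⟨_, ha⟩) h1).symm
    subst haa
    have hl : l = l' := natStr_injective (Part.mem_unique ha ha')
    subst hl
    rw [hp, hq, List.prefix_append_right_inj] at h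
    obtain ⟨hk, hu⟩ := replicate_aux h
    subst hk
    have hu' := hu.eq_of_length (by rw [length_natStr_lvl hj, length_natStr_lvl hj'])
    have hjj := lvl_injective (natStr_injective hu')
    subst hjj
    rfl
  obtain ⟨c, hc⟩ := hV.of_rel hR (by
    rintro p q x y ⟨w, hw⟩ ⟨w', hw'⟩ h
    have := hpre p q x y w w' hw hw' h
    subst this
    exact hw.1.1.trans hw'.1.1.symm) (by
    rintro p x y ⟨w, hw⟩ ⟨w', hw'⟩
    have := hpre p p x y w w' hw hw' (List.prefix_refl p)
    subst this
    obtain ⟨⟨l, k⟩, j⟩ := w.2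
    exact hfun _ _ _ _ hw.2.2 hw'.2.2)
  refine ⟨c + 2, fun l k y hy => ?_⟩
  obtain ⟨j, hj, hGj⟩ := hGN (l, k) y (2 ^ (k + 1)) hy (card_simple hU l k)
  obtain ⟨q, hq, hql⟩ := hV.spec (natStr l)
  obtain ⟨r, hr, hrl⟩ := hc (q ++ (List.replicate k true ++ false :: natStr (lvl (k + 1) j))) y
    ⟨(q, (l, k), j), ⟨rfl, hj⟩, hq, hGj⟩
  have h1 := complexity_le hr
  simp only [List.length_append, List.length_replicate, List.length_cons,
    length_natStr_lvl hj] at hrl
  omega

/-- The combinatorial part: some `t` works, and `t` is bounded by an average. -/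
theorem exists_threshold {U : Machine} (hU : OptimalPlain U) (l : ℕ) (y : List Bool) :
    ∃ t, 2 ^ l ≤ 2 * cnt U l t y ∧
      t * 2 ^ l + 2 * (l * 2 ^ l) ≤
        2 * ∑ i ∈ Finset.range (2 ^ l), complexity U (natStr (lvl l i) ++ y) + 5 * 2 ^ l := by
  classical
  set C : ℕ → ℕ := fun i => complexity U (natStr (lvl l i) ++ y) with hC
  have hex : ∃ t, 2 ^ l ≤ 2 * cnt U l t y := by
    refine ⟨(Finset.range (2 ^ l)).sup C + 1, ?_⟩
    have : cnt U l ((Finset.range (2 ^ l)).sup C + 1) y = 2 ^ l := by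
      unfold cnt
      rw [Nat.count_iff_forall]
      intro i hi
      have := Finset.le_sup (f := C) (Finset.mem_range.2 hi)
      show C i < _
      omega
    omega
  have hneg : ∑ i ∈ Finset.range (2 ^ l), (l - C i) ≤ 2 * 2 ^ l := by
    have h1 : ∀ i, (l - C i) = ∑ m ∈ Finset.range l, if C i < m + 1 then 1 else 0 := by
      intro i
      rw [← Finset.card_filter]
      have : (Finset.range l).filter (fun m => C i < m + 1) = Finset.Ico (C i) l := by
        ext m; simp; omega
      rw [this, Nat.card_Ico]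
    simp only [h1]
    rw [Finset.sum_comm]
    have h2 : ∀ m ∈ Finset.range l, (∑ i ∈ Finset.range (2 ^ l), if C i < m + 1 then 1 else 0)
        ≤ 2 ^ (m + 1) := by
      intro m _
      rw [← Finset.card_filter]
      have h3 : (((Finset.range (2 ^ l)).filter (fun i => C i < m + 1)).image
          (fun i => natStr (lvl l i) ++ y)).card =
          ((Finset.range (2 ^ l)).filter (fun i => C i < m + 1)).card := by
        apply Finset.card_image_of_injOn
        intro i hi i' hi' h
        simp only [Finset.coe_filter, Finset.mem_range, Set.mem_ofPred_eq] at hi hi'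
        exact (append_inj_lvl hi.1 hi'.1 h).1
      rw [← h3]
      apply hU.card_lt
      intro x hx
      obtain ⟨i, hi, rfl⟩ := Finset.mem_image.1 hx
      exact (Finset.mem_filter.1 hi).2
    refine (Finset.sum_le_sum h2).trans ?_
    clear h1 h2 hex hC C
    induction l with
    | zero => simp
    | succ l ih =>
      rw [Finset.sum_range_succ, pow_succ]
      omega
  have hsum : ∑ i ∈ Finset.range (2 ^ l), C i + ∑ i ∈ Finset.range (2 ^ l), (l - C i) =
      l * 2 ^ l + ∑ i ∈ Finset.range (2 ^ l), (C i - l) := by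
    have h1 : l * 2 ^ l = ∑ i ∈ Finset.range (2 ^ l), l := by simp [mul_comm]
    rw [h1, ← Finset.sum_add_distrib, ← Finset.sum_add_distrib]
    apply Finset.sum_congr rfl
    intro i _
    omega
  refine ⟨Nat.find hex, Nat.find_spec hex, ?_⟩
  have hpos : Nat.find hex * 2 ^ l ≤ 2 * ∑ i ∈ Finset.range (2 ^ l), (C i - l) + 2 ^ l := by
    rcases Nat.eq_zero_or_pos (Nat.find hex) with h0 | h0
    · rw [h0]; omega
    · obtain ⟨t, ht⟩ : ∃ t, Nat.find hex = t + 1 := ⟨Nat.find hex - 1, by omega⟩
      have h1 := Nat.find_min hex (m := t) (by omega)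
      rw [ht]
      have h2 : 2 ^ l ≤ 2 * ((Finset.range (2 ^ l)).filter (fun i => ¬ C i < l + t)).card := by
        have h3 := Finset.card_filter_add_card_filter_not (s := Finset.range (2 ^ l))
          (fun i => C i < l + t)
        rw [Finset.card_range] at h3
        have h4 : ((Finset.range (2 ^ l)).filter (fun i => C i < l + t)).card = cnt U l t y := by
          unfold cnt
          rw [Nat.count_eq_card_filter_range]
        omega
      have h5 : t * ((Finset.range (2 ^ l)).filter (fun i => ¬ C i < l + t)).card ≤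
          ∑ i ∈ Finset.range (2 ^ l), (C i - l) := by
        calc t * ((Finset.range (2 ^ l)).filter (fun i => ¬ C i < l + t)).card
            = ∑ i ∈ (Finset.range (2 ^ l)).filter (fun i => ¬ C i < l + t), t := by
              simp [mul_comm]
          _ ≤ ∑ i ∈ (Finset.range (2 ^ l)).filter (fun i => ¬ C i < l + t), (C i - l) := by
              apply Finset.sum_le_sum
              intro i hi
              have := (Finset.mem_filter.1 hi).2
              omega
          _ ≤ _ := Finset.sum_le_sum_of_subset (Finset.filter_subset _ _)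
      have h6 : t * 2 ^ l ≤ 2 * (t * ((Finset.range (2 ^ l)).filter
          (fun i => ¬ C i < l + t)).card) := by
        calc t * 2 ^ l ≤ t * (2 * ((Finset.range (2 ^ l)).filter
              (fun i => ¬ C i < l + t)).card) := Nat.mul_le_mul_left _ h2
          _ = _ := by ring
      have h7 : (t + 1) * 2 ^ l = t * 2 ^ l + 2 ^ l := by ring
      omega
  show Nat.find hex * 2 ^ l + 2 * (l * 2 ^ l) ≤
    2 * ∑ i ∈ Finset.range (2 ^ l), C i + 5 * 2 ^ l
  omega

/-- The key pointwise inequality. -/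
theorem key_inequality {U V : Machine} (hU : OptimalPlain U) (hV : OptimalPrefixFree V) :
    ∃ c : ℕ, ∀ y : List Bool,
      complexity V y * 2 ^ y.length + 4 * (y.length * 2 ^ y.length) ≤
        (complexity V (natStr y.length) + c) * 2 ^ y.length +
          4 * ∑ i ∈ Finset.range (2 ^ y.length), complexity U (natStr (lvl y.length i) ++ y) := by
  obtain ⟨c, hc⟩ := complexity_of_simple hU hV
  refine ⟨c + 10, fun y => ?_⟩
  obtain ⟨t, h1, h2⟩ := exists_threshold hU y.length y
  have h3 := hc y.length t y ⟨rfl, h1⟩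
  have h4 : complexity V y * 2 ^ y.length ≤
      (complexity V (natStr y.length) + 2 * t + c) * 2 ^ y.length :=
    Nat.mul_le_mul_right _ h3
  have h5 : (complexity V (natStr y.length) + 2 * t + c) * 2 ^ y.length =
      (complexity V (natStr y.length) + c) * 2 ^ y.length + 2 * (t * 2 ^ y.length) := by ring
  have h6 : (complexity V (natStr y.length) + (c + 10)) * 2 ^ y.length =
      (complexity V (natStr y.length) + c) * 2 ^ y.length + 10 * 2 ^ y.length := by ring
  omega

end Pool.Agent.H.MP_616e01_lc
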