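import Mathlib
import Pool.Agent.H.MP_616e01_lc.Key

/-!
Averages over cylinders, and the transfer of the key inequality.
-/

set_option linter.all false

namespace Pool.Agent.H.MP_616e01_lc

open MeasureTheory

/-- The restriction of an infinite sequence to its first `n` bits. -/
def restr (n : ℕ) (X : ℕ → Bool) : Fin n → Bool := fun i => X i

theorem measurable_restr (n : ℕ) : Measurable (restr n) :=
  measurable_pi_lambda _ fun i => measurable_pi_apply _

theorem cylinder_eq (n : ℕ) (v : Fin n → Bool) :
    cylinder (List.ofFn v) = restr n ⁻¹' {v} := by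
  ext X
  simp only [cylinder, Set.mem_ofPred_eq, Set.mem_preimage, Set.mem_singleton_iff, restr]
  constructor
  · intro h
    ext i
    have := h i (by simp)
    show X i = v i
    simpa using this
  · intro h i hi
    have hi' : i < n := by simpa using hi
    have h2 : X i = v ⟨i, hi'⟩ := congrFun h ⟨i, hi'⟩
    simpa using h2

/-- The average of `h` over the strings of length `n`. -/
noncomputable def avg (μ : Measure (ℕ → Bool)) (n : ℕ) (h : List Bool → ℝ) : ℝ :=
  ∑ v : Fin n → Bool, (μ (cylinder (List.ofFn v))).toReal * h (List.ofFn v)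

variable (μ : Measure (ℕ → Bool)) [IsProbabilityMeasure μ]

theorem avg_eq_integral (n : ℕ) (h : List Bool → ℝ) :
    avg μ n h = ∫ X, h (List.ofFn (restr n X)) ∂μ := by
  have h1 : ∫ X, h (List.ofFn (restr n X)) ∂μ =
      ∫ v, h (List.ofFn v) ∂(μ.map (restr n)) := by
    rw [integral_map (measurable_restr n).aemeasurable]
    exact (measurable_of_finite _).aestronglyMeasurable
  haveI : IsProbabilityMeasure (μ.map (restr n)) :=
    Measure.isProbabilityMeasure_map (measurable_restr n).aemeasurable
  rw [h1, integral_fintype Integrable.of_finite]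
  unfold avg
  apply Finset.sum_congr rfl
  intro v _
  rw [cylinder_eq, smul_eq_mul, Measure.real, Measure.map_apply (measurable_restr n)
    (measurableSet_singleton v)]

theorem avg_take (n l : ℕ) (hl : l ≤ n) (h : List Bool → ℝ) :
    avg μ n (fun x => h (x.take l)) = avg μ l h := by
  rw [avg_eq_integral, avg_eq_integral]
  congr 1
  ext X
  congr 1
  apply List.ext_getElem
  · simp [hl]
  · intro i h1 h2
    simp [restr]

theorem avg_const (n : ℕ) (c : ℝ) : avg μ n (fun _ => c) = c := by
  rw [avg_eq_integral]
  simp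

theorem avg_mono {n : ℕ} {h g : List Bool → ℝ} (hg : ∀ x, x.length = n → h x ≤ g x) :
    avg μ n h ≤ avg μ n g := by
  unfold avg
  apply Finset.sum_le_sum
  intro v _
  exact mul_le_mul_of_nonneg_left (hg _ (by simp)) ENNReal.toReal_nonneg

theorem avg_add (n : ℕ) (h g : List Bool → ℝ) :
    avg μ n (fun x => h x + g x) = avg μ n h + avg μ n g := by
  unfold avg
  rw [← Finset.sum_add_distrib]
  apply Finset.sum_congr rfl
  intro v _
  ring

theorem avg_mul_const (n : ℕ) (h : List Bool → ℝ) (c : ℝ) :
    avg μ n (fun x => h x * c) = avg μ n h * c := by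
  unfold avg
  rw [Finset.sum_mul]
  apply Finset.sum_congr rfl
  intro v _
  ring

theorem avg_const_mul (n : ℕ) (h : List Bool → ℝ) (c : ℝ) :
    avg μ n (fun x => c * h x) = c * avg μ n h := by
  unfold avg
  rw [Finset.mul_sum]
  apply Finset.sum_congr rfl
  intro v _
  ring

theorem avg_sum {ι : Type} (n : ℕ) (s : Finset ι) (h : ι → List Bool → ℝ) :
    avg μ n (fun x => ∑ i ∈ s, h i x) = ∑ i ∈ s, avg μ n (h i) := by
  unfold avg
  rw [Finset.sum_comm]
  apply Finset.sum_congr rfl
  intro v _
  rw [Finset.mul_sum]

/-- The map `x ↦ natStr |x| ++ (the first |natStr |x|| bits of x)`. -/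
def code (x : List Bool) : List Bool := natStr x.length ++ x.take (natStr x.length).length

theorem computable_code : Computable code := by
  apply Primrec.to_comp
  unfold code
  have h : Primrec fun x : List Bool => natStr x.length := primrec_natStr.comp Primrec.list_length
  exact Primrec.list_append.comp h
    (Primrec.list_take.comp (Primrec.list_length.comp h) Primrec.id)

theorem le_lvl (l i : ℕ) : l ≤ lvl l i := by
  unfold lvl
  have := Nat.lt_two_pow_self (n := l)
  omega

theorem main {U V : Machine} (hU : OptimalPlain U) (hV : OptimalPrefixFree V)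
    (h : IsTrivial U μ) : IsTrivial V μ := by
  obtain ⟨c0, h0⟩ := h
  obtain ⟨c1, h1⟩ := hU.le_comp computable_code
  obtain ⟨c2, h2⟩ := hU.le_length
  obtain ⟨c3, h3⟩ := key_inequality hU hV
  refine ⟨c3 + 4 * (c0 + c1 + c2), fun l => ?_⟩
  -- the average of the plain complexity of `n` and `y`
  have hC : ∀ i < 2 ^ l, avg μ l (fun y => (complexity U (natStr (lvl l i) ++ y) : ℝ)) ≤
      l + (c0 + c1 + c2) := by
    intro i hi
    have e1 : avg μ l (fun y => (complexity U (natStr (lvl l i) ++ y) : ℝ)) =
        avg μ (lvl l i) (fun x => (complexity U (natStr (lvl l i) ++ x.take l) : ℝ)) :=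
      (avg_take μ (lvl l i) l (le_lvl l i)
        (fun y => (complexity U (natStr (lvl l i) ++ y) : ℝ))).symm
    have e2 : avg μ (lvl l i) (fun x => (complexity U (natStr (lvl l i) ++ x.take l) : ℝ)) ≤
        avg μ (lvl l i) (fun x => (complexity U x : ℝ) + c1) := by
      apply avg_mono
      intro x hx
      have := h1 x
      rw [code, hx, length_natStr_lvl hi] at this
      exact_mod_cast this
    have e3 : avg μ (lvl l i) (fun x => (complexity U x : ℝ) + c1) =
        average U μ (lvl l i) + c1 := by
      rw [avg_add, avg_const]; rfl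
    have e4 := h0 (lvl l i)
    have e5 := h2 (natStr (lvl l i))
    rw [length_natStr_lvl hi] at e5
    have e6 : (complexity U (natStr (lvl l i)) : ℝ) ≤ l + c2 := by exact_mod_cast e5
    linarith
  have hK : avg μ l (fun y => (complexity V y : ℝ) * 2 ^ l + 4 * (l * 2 ^ l)) ≤
      avg μ l (fun y => ((complexity V (natStr l) : ℝ) + c3) * 2 ^ l +
        4 * ∑ i ∈ Finset.range (2 ^ l), (complexity U (natStr (lvl l i) ++ y) : ℝ)) := by
    apply avg_mono
    intro y hy
    have := h3 y
    rw [hy] at this
    exact_mod_cast this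
  rw [avg_add, avg_mul_const, avg_const, avg_add, avg_const, avg_const_mul, avg_sum] at hK
  have hS : ∑ i ∈ Finset.range (2 ^ l),
      avg μ l (fun y => (complexity U (natStr (lvl l i) ++ y) : ℝ)) ≤
      (l + (c0 + c1 + c2)) * 2 ^ l := by
    calc _ ≤ ∑ i ∈ Finset.range (2 ^ l), ((l : ℝ) + (c0 + c1 + c2)) :=
          Finset.sum_le_sum fun i hi => hC i (Finset.mem_range.1 hi)
      _ = _ := by simp; ring
  have hav : average V μ l = avg μ l (fun y => (complexity V y : ℝ)) := rfl
  rw [hav]
  have hpos : (0 : ℝ) < 2 ^ l := by positivity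
  have hfin : avg μ l (fun y => (complexity V y : ℝ)) * 2 ^ l ≤
      ((complexity V (natStr l) : ℝ) + (c3 + 4 * (c0 + c1 + c2))) * 2 ^ l := by
    nlinarith [hK, hS]
  exact le_of_mul_le_mul_right hfin hpos

end Pool.Agent.H.MP_616e01_lc
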