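import Mathlib
import Pool.Agent.H.MP_616e01_lc.Machines

/-!
Sanity check: optimal plain machines and optimal prefix-free machines exist.
-/

set_option linter.all false

namespace Pool.Agent.H.MP_616e01_lc

open Nat.Partrec (Code)

/-- Evaluation of the `e`-th code at stage `n`, as a relation between strings. -/
def Stage (z : (ℕ × ℕ) × (List Bool × List Bool)) : Prop :=
  Code.evaln z.1.2 (Denumerable.ofNat Code z.1.1) (Encodable.encode z.2.1) =
    some (Encodable.encode z.2.2)

theorem primrec_stage : PrimrecPred Stage := by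
  refine Primrec.eq.comp
    (f := fun z : (ℕ × ℕ) × (List Bool × List Bool) =>
      Code.evaln z.1.2 (Denumerable.ofNat Code z.1.1) (Encodable.encode z.2.1))
    (g := fun z => some (Encodable.encode z.2.2)) ?_ ?_
  · exact Code.primrec_evaln.comp (((Primrec.snd.comp Primrec.fst).pair
      ((Primrec.ofNat Code).comp (Primrec.fst.comp Primrec.fst))).pair
        (Primrec.encode.comp (Primrec.fst.comp Primrec.snd)))
  · exact Primrec.option_some.comp (Primrec.encode.comp (Primrec.snd.comp Primrec.snd))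

theorem exists_index {N : Machine} (hN : Partrec N) :
    ∃ e : ℕ, ∀ p x, x ∈ N p ↔ ∃ n, Stage ((e, n), (p, x)) := by
  obtain ⟨c, hc⟩ := Code.exists_code.1 hN
  refine ⟨Encodable.encode c, fun p x => ?_⟩
  unfold Stage
  simp only [Denumerable.ofNat_encode]
  have h1 : (x ∈ N p) ↔ Encodable.encode x ∈ Code.eval c (Encodable.encode p) := by
    rw [hc]
    simp only [Encodable.encodek, Part.coe_some, Part.bind_some, Part.mem_map_iff]
    constructor
    · intro h
      exact ⟨x, h, rfl⟩
    · rintro ⟨b', h, e⟩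
      exact (Encodable.encode_injective e) ▸ h
  rw [h1, Code.evaln_complete]
  rfl

theorem stage_unique {e n m : ℕ} {p x y : List Bool} (h : Stage ((e, n), (p, x)))
    (h' : Stage ((e, m), (p, y))) : x = y := by
  have h1 : Encodable.encode x ∈ Code.eval (Denumerable.ofNat Code e) (Encodable.encode p) :=
    Code.evaln_sound (k := n) h
  have h2 : Encodable.encode y ∈ Code.eval (Denumerable.ofNat Code e) (Encodable.encode p) :=
    Code.evaln_sound (k := m) h'
  exact Encodable.encode_injective (Part.mem_unique h1 h2)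

/-- Turn a single-valued c.e. relation for each index into a machine. -/
theorem machine_of_rel {A : (ℕ × List Bool) × List Bool → Prop} (hA : CE A)
    (hf : ∀ e p x y, A ((e, p), x) → A ((e, p), y) → x = y) :
    ∃ U : Machine, Partrec U ∧ (∀ r x, x ∈ U r ↔ ∃ e p,
      r = List.replicate e true ++ false :: p ∧ A ((e, p), x)) := by
  have hR : CE (fun z : List Bool × List Bool => ∃ w : ℕ × List Bool,
      z.1 = List.replicate w.1 true ++ false :: w.2 ∧ A (w, z.2)) := by
    apply CE.exists (β := ℕ × List Bool) (R := fun z : (List Bool × List Bool) × (ℕ × List Bool) =>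
      z.1.1 = List.replicate z.2.1 true ++ false :: z.2.2 ∧ A (z.2, z.1.2))
    refine CE.and (CE.of_primrec ?_) ?_
    · exact Primrec.eq.comp (Primrec.fst.comp Primrec.fst)
        (Primrec.list_append.comp (primrec_replicate.comp (Primrec.fst.comp Primrec.snd))
          (Primrec.list_cons.comp (Primrec.const false) (Primrec.snd.comp Primrec.snd)))
    · exact hA.comp (f := fun z : (List Bool × List Bool) × (ℕ × List Bool) => (z.2, z.1.2))
        (Primrec.pair Primrec.snd (Primrec.snd.comp Primrec.fst))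
  obtain ⟨U, hU, hUR, hdom⟩ := hR.uniformize
  refine ⟨U, hU, fun r x => ⟨fun h => ?_, ?_⟩⟩
  · obtain ⟨⟨e, p⟩, h1, h2⟩ := hUR r x h
    exact ⟨e, p, h1, h2⟩
  · rintro ⟨e, p, h1, h2⟩
    have h3 := hdom r ⟨x, (e, p), h1, h2⟩
    obtain ⟨⟨e', p'⟩, h4, h5⟩ := hUR r _ (Part.get_mem h3)
    simp only at h4 h5
    have h6 : List.replicate e true ++ false :: p <+: List.replicate e' true ++ false :: p' := by
      rw [← h1, ← h4]
    obtain ⟨he, hp⟩ := replicate_aux h6
    subst he
    have h7 : p = p' := by
      have := h1.symm.trans h4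
      simpa using this
    subst h7
    have h8 := hf e p _ _ h2 h5
    rw [h8]
    exact Part.get_mem h3

theorem exists_optimalPlain : ∃ U : Machine, OptimalPlain U := by
  have hA : CE (fun z : (ℕ × List Bool) × List Bool => ∃ n, Stage ((z.1.1, n), (z.1.2, z.2))) := by
    refine CE.exists (β := ℕ)
      (R := fun z : ((ℕ × List Bool) × List Bool) × ℕ => Stage ((z.1.1.1, z.2), (z.1.1.2, z.1.2)))
      (CE.of_primrec ?_)
    exact primrec_stage.comp (Primrec.pair (Primrec.pair (Primrec.fst.comp (Primrec.fst.comp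
      Primrec.fst)) Primrec.snd) (Primrec.pair (Primrec.snd.comp (Primrec.fst.comp Primrec.fst))
        (Primrec.snd.comp Primrec.fst)))
  obtain ⟨U, hU, hUA⟩ := machine_of_rel hA (by
    rintro e p x y ⟨n, hn⟩ ⟨m, hm⟩
    exact stage_unique hn hm)
  refine ⟨U, hU, fun N hN => ?_⟩
  obtain ⟨e, he⟩ := exists_index hN
  refine ⟨e + 1, fun p x hx => ⟨List.replicate e true ++ false :: p, ?_, ?_⟩⟩
  · rw [hUA]
    exact ⟨e, p, rfl, (he p x).1 hx⟩
  · simp; omega

theorem exists_optimalPrefixFree : ∃ V : Machine, OptimalPrefixFree V := by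
  classical
  -- `Bad` : at an earlier stage a comparable program was accepted
  let T : (ℕ × List Bool) × ℕ → Prop := fun z => ∃ w : List Bool × List Bool,
    Encodable.decode₂ (List Bool × List Bool) z.2.unpair.1 = some w ∧
      (Stage ((z.1.1, z.2.unpair.2), w) ∧
        (w.1 = z.1.2.take w.1.length ∨ z.1.2 = w.1.take z.1.2.length))
  have hT : PrimrecPred T := by
    refine primrecPred_option (β := List Bool × List Bool)
      (f := fun z : (ℕ × List Bool) × ℕ => Encodable.decode₂ (List Bool × List Bool) z.2.unpair.1)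
      (Q := fun y : ((ℕ × List Bool) × ℕ) × (List Bool × List Bool) =>
        (Stage ((y.1.1.1, y.1.2.unpair.2), y.2) ∧
        (y.2.1 = y.1.1.2.take y.2.1.length ∨ y.1.1.2 = y.2.1.take y.1.1.2.length))) ?_
      (Primrec.decode₂.comp (Primrec.fst.comp (Primrec.unpair.comp Primrec.snd)))
    have q1 : Primrec fun y : ((ℕ × List Bool) × ℕ) × (List Bool × List Bool) => y.1.1.2 :=
      Primrec.snd.comp (Primrec.fst.comp Primrec.fst)
    have q2 : Primrec fun y : ((ℕ × List Bool) × ℕ) × (List Bool × List Bool) => y.2.1 :=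
      Primrec.fst.comp Primrec.snd
    refine PrimrecPred.and ?_ (PrimrecPred.or ?_ ?_)
    · exact primrec_stage.comp (Primrec.pair (Primrec.pair (Primrec.fst.comp (Primrec.fst.comp
        Primrec.fst)) (Primrec.snd.comp (Primrec.unpair.comp (Primrec.snd.comp Primrec.fst))))
          Primrec.snd)
    · exact Primrec.eq.comp q2 (Primrec.list_take.comp (Primrec.list_length.comp q2) q1)
    · exact Primrec.eq.comp q1 (Primrec.list_take.comp (Primrec.list_length.comp q1) q2)
  have hTiff : ∀ e p m, T ((e, p), m) ↔ ∃ p' x' n', m = Nat.pair (Encodable.encode (p', x')) n' ∧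
      Stage ((e, n'), (p', x')) ∧ (p' <+: p ∨ p <+: p') := by
    intro e p m
    simp only [T, Encodable.decode₂_eq_some]
    constructor
    · rintro ⟨⟨p', x'⟩, h1, h2, h3⟩
      refine ⟨p', x', m.unpair.2, ?_, h2, ?_⟩
      · rw [h1, Nat.pair_unpair]
      · simpa only [List.prefix_iff_eq_take] using h3
    · rintro ⟨p', x', n', rfl, h2, h3⟩
      refine ⟨(p', x'), by simp, by simpa using h2, ?_⟩
      simpa only [List.prefix_iff_eq_take] using h3
  let A : (ℕ × List Bool) × List Bool → Prop := fun z => ∃ n,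
    Stage ((z.1.1, n), (z.1.2, z.2)) ∧
      ¬ ∃ m < Nat.pair (Encodable.encode (z.1.2, z.2)) n, T (z.1, m)
  have hA : CE A := by
    refine CE.exists (β := ℕ) (R := fun y : ((ℕ × List Bool) × List Bool) × ℕ =>
      Stage ((y.1.1.1, y.2), (y.1.1.2, y.1.2)) ∧
        ¬ ∃ m < Nat.pair (Encodable.encode (y.1.1.2, y.1.2)) y.2, T (y.1.1, m))
      (CE.of_primrec (PrimrecPred.and ?_ (PrimrecPred.not ?_)))
    · exact primrec_stage.comp (Primrec.pair (Primrec.pair (Primrec.fst.comp (Primrec.fst.comp
        Primrec.fst)) Primrec.snd) (Primrec.pair (Primrec.snd.comp (Primrec.fst.comp Primrec.fst))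
          (Primrec.snd.comp Primrec.fst)))
    · exact (primrecPred_exists_lt hT).comp
        (f := fun y : ((ℕ × List Bool) × List Bool) × ℕ =>
          (y.1.1, Nat.pair (Encodable.encode (y.1.1.2, y.1.2)) y.2))
        (Primrec.pair (Primrec.fst.comp Primrec.fst) (Primrec₂.natPair.comp
          (Primrec.encode.comp (Primrec.pair (Primrec.snd.comp (Primrec.fst.comp Primrec.fst))
            (Primrec.snd.comp Primrec.fst))) Primrec.snd))
  obtain ⟨V, hV, hVA⟩ := machine_of_rel hA (by
    rintro e p x y ⟨n, hn, -⟩ ⟨m, hm, -⟩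
    exact stage_unique hn hm)
  refine ⟨V, hV, ?_, fun N hN hNpf => ?_⟩
  · intro r r' hr hr' h
    obtain ⟨e, p, h1, n, hn, hn'⟩ := (hVA r _).1 (Part.get_mem hr)
    obtain ⟨e', p', h1', m, hm, hm'⟩ := (hVA r' _).1 (Part.get_mem hr')
    rw [h1, h1'] at h
    obtain ⟨he, hp⟩ := replicate_aux h
    subst he
    rw [h1, h1']
    simp only at hn hn' hm hm'
    rcases lt_trichotomy (Nat.pair (Encodable.encode (p, (V r).get hr)) n)
      (Nat.pair (Encodable.encode (p', (V r').get hr')) m) with h2 | h2 | h2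
    · exact absurd ⟨_, h2, (hTiff _ _ _).2 ⟨p, _, n, rfl, hn, Or.inl hp⟩⟩ hm'
    · have h3 := Encodable.encode_injective (Nat.pair_eq_pair.1 h2).1
      rw [(Prod.mk.inj h3).1]
    · exact absurd ⟨_, h2, (hTiff _ _ _).2 ⟨p', _, m, rfl, hm, Or.inr hp⟩⟩ hn'
  · obtain ⟨e, he⟩ := exists_index hN
    refine ⟨e + 1, fun p x hx => ⟨List.replicate e true ++ false :: p, ?_, ?_⟩⟩
    · rw [hVA]
      refine ⟨e, p, rfl, ?_⟩
      have hex := (he p x).1 hx
      refine ⟨Nat.find hex, Nat.find_spec hex, ?_⟩
      rintro ⟨m, hm, hTm⟩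
      obtain ⟨p', x', n', rfl, h2, h3⟩ := (hTiff _ _ _).1 hTm
      have h4 : x' ∈ N p' := (he p' x').2 ⟨_, h2⟩
      have h5 : p' = p := by
        rcases h3 with h3 | h3
        · exact hNpf p' p (Part.dom_iff_mem.2 ⟨_, h4⟩) (Part.dom_iff_mem.2 ⟨_, hx⟩) h3
        · exact (hNpf p p' (Part.dom_iff_mem.2 ⟨_, hx⟩) (Part.dom_iff_mem.2 ⟨_, h4⟩) h3).symm
      subst h5
      have h6 : x' = x := Part.mem_unique h4 hx
      subst h6
      have h7 : n' < Nat.find hex := by
        by_contra h7
        push Not at h7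
        have : Nat.pair (Encodable.encode (p', x')) (Nat.find hex) ≤
            Nat.pair (Encodable.encode (p', x')) n' := by
          rcases h7.lt_or_eq with h8 | h8
          · exact (Nat.pair_lt_pair_right _ h8).le
          · rw [h8]
        simp only at hm
        omega
      exact Nat.find_min hex h7 h2
    · simp; omega

end Pool.Agent.H.MP_616e01_lc
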